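import Pool.Agent.U856.BM.Stm2

/-!
# Project BM, package MI: minimality
-/

set_option autoImplicit false

open Set Filter Topology ComplexConjugate

namespace Pool.Agent.U559.BM.MI

open Pool.Agent.U856.BM Relation

theorem fin_al (q : ℕ) (hq : 0 < q) : Finite {i : St // Al q i} := by
  have h1 : {w : ℂ | w ^ (2 * q) = 1}.Finite := by
    have hs : {w : ℂ | w ^ (2 * q) = 1} ⊆
        ((Polynomial.nthRootsFinset (2 * q) (1 : ℂ) : Finset ℂ) : Set ℂ) := by
      intro w hw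
      rw [Finset.mem_coe, Polynomial.mem_nthRootsFinset (by omega)]
      exact hw
    exact (Finset.finite_toSet _).subset hs
  have h2 : {i : St | Al q i}.Finite := by
    apply (h1.prod (Set.finite_univ : (univ : Set Bool).Finite)).subset
    rintro ⟨w, t⟩ h
    exact ⟨h, trivial⟩
  exact h2.to_subtype

noncomputable def lb (a b v α : ℝ) (i : St) : ℝ :=
  Finset.univ.inf' ⟨0, Finset.mem_univ _⟩ (fun k : Fin 5 => uu a b i (vS a b v α k))

noncomputable def rb (a b v α : ℝ) (i : St) : ℝ :=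
  Finset.univ.sup' ⟨0, Finset.mem_univ _⟩ (fun k : Fin 5 => uu a b i (vS a b v α k))

theorem inR_iff (a b v α : ℝ) (i : St) (u : ℝ) :
    InR a b v α i u ↔ lb a b v α i < u ∧ u < rb a b v α i := by
  unfold InR lb rb
  rw [Finset.inf'_lt_iff, Finset.lt_sup'_iff]
  simp

theorem lb_le (a b v α : ℝ) (i : St) (k : Fin 5) : lb a b v α i ≤ uu a b i (vS a b v α k) :=
  Finset.inf'_le (fun k : Fin 5 => uu a b i (vS a b v α k)) (Finset.mem_univ k)

theorem le_rb (a b v α : ℝ) (i : St) (k : Fin 5) : uu a b i (vS a b v α k) ≤ rb a b v α i :=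
  Finset.le_sup' (fun k : Fin 5 => uu a b i (vS a b v α k)) (Finset.mem_univ k)

noncomputable def lo (a b v α : ℝ) (i : St) (j : Fin 5) : ℝ :=
  if 0 < dt (dd a b) (G i (nS α j)) then
    min (uu a b i (vS a b v α j)) (uu a b i (vS a b v α (j + 1))) else 0

noncomputable def hi (a b v α : ℝ) (i : St) (j : Fin 5) : ℝ :=
  if 0 < dt (dd a b) (G i (nS α j)) then
    max (uu a b i (vS a b v α j)) (uu a b i (vS a b v α (j + 1))) else 0

theorem exit_iff (a b v α : ℝ) (i : St) (u : ℝ) (j : Fin 5) :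
    Exit a b v α i u j ↔ lo a b v α i j < u ∧ u < hi a b v α i j := by
  unfold Exit lo hi
  by_cases h : 0 < dt (dd a b) (G i (nS α j))
  · simp only [h, if_true, true_and]
  · simp only [h, if_false, false_and, false_iff]
    rintro ⟨h1, h2⟩
    linarith

/-- the target -/
noncomputable def tg (α : ℝ) (q : ℕ) (k : {i : St // Al q i} × Fin 5) : {i : St // Al q i} :=
  open Classical in if h : Al q (rs α k.2 k.1.1) then ⟨rs α k.2 k.1.1, h⟩ else k.1

theorem tg_val (α : ℝ) (q : ℕ) (k : {i : St // Al q i} × Fin 5) (h : Al q (rs α k.2 k.1.1)) :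
    (tg α q k).1 = rs α k.2 k.1.1 := by
  unfold tg
  rw [dif_pos h]

/-- the relation on chords of algebraic states -/
def RR (a b v α : ℝ) (q : ℕ) (z z' : {i : St // Al q i} × ℝ) : Prop :=
  Stq a b v α (z.1.1, z.2) (z'.1.1, z'.2)

theorem RR_iff {a b v α : ℝ} {h q : ℕ} (hR : Rat a b v α h q) (EX : S_EX)
    (z z' : {i : St // Al q i} × ℝ) :
    RR a b v α q z z' ↔ ∃ k : {i : St // Al q i} × Fin 5, z.1 = k.1 ∧ lo a b v α k.1.1 k.2 < z.2 ∧
      z.2 < hi a b v α k.1.1 k.2 ∧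
      z' = (tg α q k, z.2 + -(2 * oS a b v k.2 * cr (dd a b) (G k.1.1 (nS α k.2)))) := by
  constructor
  · rintro ⟨j, hE, he⟩
    have hE' := (exit_iff _ _ _ _ _ _ _).1 hE
    have hA := ((EX a b v α h q hR z.1.1 z.2 z.1.2).2.2.1 j hE).2.1
    refine ⟨(z.1, j), rfl, hE'.1, hE'.2, ?_⟩
    have e1 : z'.1.1 = rs α j z.1.1 := congrArg Prod.fst he
    have e2 : z'.2 = z.2 - 2 * oS a b v j * cr (dd a b) (G z.1.1 (nS α j)) := congrArg Prod.snd he
    apply Prod.ext
    · apply Subtype.ext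
      rw [e1]
      exact (tg_val α q (z.1, j) hA).symm
    · show z'.2 = z.2 + -(2 * oS a b v j * cr (dd a b) (G z.1.1 (nS α j)))
      rw [e2]; ring
  · rintro ⟨⟨i, j⟩, h1, h2, h3, h4⟩
    obtain ⟨zi, zu⟩ := z
    simp only at h1 h2 h3 h4
    subst h1
    have hE : Exit a b v α zi.1 zu j := (exit_iff _ _ _ _ _ _ _).2 ⟨h2, h3⟩
    have hA := ((EX a b v α h q hR zi.1 zu zi.2).2.2.1 j hE).2.1
    refine ⟨j, hE, ?_⟩
    rw [h4]
    apply Prod.ext
    · exact tg_val α q (zi, j) hA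
    · show zu + -(2 * oS a b v j * cr (dd a b) (G zi.1 (nS α j))) =
        zu - 2 * oS a b v j * cr (dd a b) (G zi.1 (nS α j))
      ring

theorem rtg_lift {a b v α : ℝ} {q : ℕ} {z z' : {i : St // Al q i} × ℝ}
    (h : ReflTransGen (RR a b v α q) z z') :
    ReflTransGen (Stq a b v α) (z.1.1, z.2) (z'.1.1, z'.2) := by
  induction h with
  | refl => exact ReflTransGen.refl
  | tail _ h2 ih => exact ih.tail h2

theorem tg_lift {a b v α : ℝ} {q : ℕ} {z z' : {i : St // Al q i} × ℝ}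
    (h : TransGen (RR a b v α q) z z') :
    TransGen (Stq a b v α) (z.1.1, z.2) (z'.1.1, z'.2) := by
  induction h with
  | single h => exact TransGen.single h
  | tail _ h2 ih => exact ih.tail h2

/-- forward: algebraic states in the range -/
theorem fwd {a b v α : ℝ} {h q : ℕ} (hR : Rat a b v α h q) (EX : S_EX) {z z' : St × ℝ}
    (hr : ReflTransGen (Stq a b v α) z z') (hA : Al q z.1) (hI : InR a b v α z.1 z.2) :
    Al q z'.1 ∧ InR a b v α z'.1 z'.2 := by
  induction hr with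
  | refl => exact ⟨hA, hI⟩
  | tail _ h2 ih =>
    obtain ⟨j, hE, he⟩ := h2
    have := (EX a b v α h q hR _ _ ih.1).2.2.1 j hE
    rw [he]
    exact ⟨this.2.1, this.2.2⟩

/-- backward: algebraic states in the range -/
theorem bwd {a b v α : ℝ} {h q : ℕ} (hR : Rat a b v α h q) (EX : S_EX) {z z' : St × ℝ}
    (hr : ReflTransGen (Stq a b v α) z z') (hA : Al q z'.1) (hI : InR a b v α z'.1 z'.2) :
    Al q z.1 ∧ InR a b v α z.1 z.2 := by
  induction hr using ReflTransGen.head_induction_on with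
  | refl => exact ⟨hA, hI⟩
  | head h2 _ ih =>
    have h3 := (EX a b v α h q hR _ _ ih.1).2.2.2.2.2.2.1 _ h2
    obtain ⟨j, hE, he⟩ := h2
    exact ⟨h3, ((EX a b v α h q hR _ _ h3).2.2.1 j hE).1⟩

theorem inv_rtg {a b v α : ℝ} {h q : ℕ} (hR : Rat a b v α h q) (EX : S_EX) {N : Set (St × ℝ)}
    (hN : Inv a b v α q N) {z z' : St × ℝ}
    (hr : ReflTransGen (Stq a b v α) z z') (hA : Al q z.1) (hI : InR a b v α z.1 z.2) :
    z ∈ N ↔ z' ∈ N := by
  induction hr with
  | refl => exact Iff.rfl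
  | tail h1 h2 ih =>
    rw [ih]
    exact hN.2.2 _ _ (fwd hR EX h1 hA hI).1 h2

theorem bd {a b v α : ℝ} {h q : ℕ} (hR : Rat a b v α h q) (EX : S_EX) (NS : S_NS) (KE : S_KE)
    {N : Set (St × ℝ)} (hN : Inv a b v α q N) (y : St × ℝ) (hy : Al q y.1)
    (hr : InR a b v α y.1 y.2) (hyN : y ∉ N)
    (hε : ∃ ε : ℝ, 0 < ε ∧ ((∀ u, y.2 < u → u < y.2 + ε → (y.1, u) ∈ N) ∨
      ∀ u, y.2 - ε < u → u < y.2 → (y.1, u) ∈ N)) : C0 y.1 := by
  have hq : 0 < q := by
    have := hR.2.2.2.1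
    omega
  have : Finite {i : St // Al q i} := fin_al q hq
  have key := KE {i : St // Al q i} ({i : St // Al q i} × Fin 5) (RR a b v α q) (fun k => k.1)
    (tg α q) (fun k => lo a b v α k.1.1 k.2) (fun k => hi a b v α k.1.1 k.2)
    (fun k => -(2 * oS a b v k.2 * cr (dd a b) (G k.1.1 (nS α k.2))))
    (fun i => lb a b v α i.1) (fun i => rb a b v α i.1)
    (RR_iff hR EX) ?_ ?_ ?_ ?_ ?_ {z | (z.1.1, z.2) ∈ N} ?_ ?_ ?_ (⟨y.1, hy⟩, y.2)
    ((inR_iff _ _ _ _ _ _).1 hr).1 ((inR_iff _ _ _ _ _ _).1 hr).2 hyN hε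
  · obtain ⟨k1, k2⟩ := key
    have hper : TransGen (RR a b v α q) (⟨y.1, hy⟩, y.2) (⟨y.1, hy⟩, y.2) → C0 y.1 := fun hp =>
      (NS a b v α h q hR).2 y hy (tg_lift hp)
    rcases k1 with ⟨z1, hz1, hn1⟩ | hp
    · rcases k2 with ⟨z0, hz0, hn0⟩ | hp
      · have r0 := rtg_lift hz0
        have r1 := rtg_lift hz1
        have a1 := fwd hR EX r1 hy hr
        have a0 := bwd hR EX r0 hy hr
        refine (NS a b v α h q hR).1 _ y _ a0.1 r0 r1 ?_ ?_
        · rcases (EX a b v α h q hR _ _ a0.1).2.2.2.2.1 a0.2 with ⟨z, hz, hzz⟩ | hk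
          · exact absurd ⟨(⟨z.1, hz⟩, z.2), hzz⟩ hn0
          · exact hk
        · rcases (EX a b v α h q hR _ _ a1.1).1 a1.2 with ⟨j, hj⟩ | hk
          · have h3 := (EX a b v α h q hR _ _ a1.1).2.2.1 j hj
            exact absurd ⟨(⟨rs α j z1.1.1, h3.2.1⟩,
              z1.2 - 2 * oS a b v j * cr (dd a b) (G z1.1.1 (nS α j))), ⟨j, hj, rfl⟩⟩ hn1
          · exact hk
      · exact hper hp
    · exact hper hp
  · rintro ⟨zi, zu⟩ z' z'' ⟨j, hE, he⟩ ⟨j', hE', he'⟩
    have hj := (EX a b v α h q hR zi.1 zu zi.2).2.1 j j' hE hE'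
    subst hj
    have : (z'.1.1, z'.2) = (z''.1.1, z''.2) := by rw [he, he']
    apply Prod.ext
    · exact Subtype.ext (congrArg (fun p : St × ℝ => p.1) this)
    · exact congrArg (fun p : St × ℝ => p.2) this
  · rintro ⟨zi, zu⟩ z' z'' h1 h2
    have := (EX a b v α h q hR zi.1 zu zi.2).2.2.2.2.2.1 _ _ h1 h2
    apply Prod.ext
    · exact Subtype.ext (congrArg (fun p : St × ℝ => p.1) this)
    · exact congrArg (fun p : St × ℝ => p.2) this
  · rintro ⟨i, j⟩ hlt
    simp only at hlt ⊢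
    have hd : 0 < dt (dd a b) (G i.1 (nS α j)) := by
      by_contra hc
      unfold lo hi at hlt
      rw [if_neg hc, if_neg hc] at hlt
      exact lt_irrefl _ hlt
    have hEx : ∀ u, lo a b v α i.1 j < u → u < hi a b v α i.1 j →
        lb a b v α (tg α q (i, j)).1 < u + -(2 * oS a b v j * cr (dd a b) (G i.1 (nS α j))) ∧
        u + -(2 * oS a b v j * cr (dd a b) (G i.1 (nS α j))) < rb a b v α (tg α q (i, j)).1 := by
      intro u h1 h2
      have hE : Exit a b v α i.1 u j := (exit_iff _ _ _ _ _ _ _).2 ⟨h1, h2⟩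
      have h3 := (EX a b v α h q hR i.1 u i.2).2.2.1 j hE
      rw [tg_val α q (i, j) h3.2.1]
      have := (inR_iff _ _ _ _ _ _).1 h3.2.2
      refine ⟨by linarith [this.1], by linarith [this.2]⟩
    refine ⟨?_, ?_, ?_, ?_⟩
    · unfold lo
      rw [if_pos hd]
      exact le_min (lb_le _ _ _ _ _ _) (lb_le _ _ _ _ _ _)
    · unfold hi
      rw [if_pos hd]
      exact max_le (le_rb _ _ _ _ _ _) (le_rb _ _ _ _ _ _)
    · by_contra hc
      push Not at hc
      obtain ⟨u, hu1, hu2⟩ := exists_between (lt_min hlt (show lo a b v α i.1 j <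
        lb a b v α (tg α q (i, j)).1 + (2 * oS a b v j * cr (dd a b) (G i.1 (nS α j))) by linarith))
      have := (hEx u hu1 (lt_of_lt_of_le hu2 (min_le_left _ _))).1
      have h5 := lt_of_lt_of_le hu2 (min_le_right _ _)
      linarith
    · by_contra hc
      push Not at hc
      obtain ⟨u, hu1, hu2⟩ := exists_between (max_lt hlt (show
        rb a b v α (tg α q (i, j)).1 + (2 * oS a b v j * cr (dd a b) (G i.1 (nS α j))) <
          hi a b v α i.1 j by linarith))
      have := (hEx u (lt_of_le_of_lt (le_max_left _ _) hu1) hu2).2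
      have h5 := lt_of_le_of_lt (le_max_right _ _) hu1
      linarith
  · apply (Set.finite_range (fun k : {i : St // Al q i} × Fin 5 =>
      ((k.1, uu a b k.1.1 (vS a b v α k.2)) : {i : St // Al q i} × ℝ))).subset
    rintro ⟨zi, zu⟩ ⟨h1, h2, h3⟩
    have hI : InR a b v α zi.1 zu := (inR_iff _ _ _ _ _ _).2 ⟨h1, h2⟩
    rcases (EX a b v α h q hR zi.1 zu zi.2).1 hI with ⟨j, hj⟩ | ⟨k, hk⟩
    · have h4 := (EX a b v α h q hR zi.1 zu zi.2).2.2.1 j hj
      exact absurd ⟨(⟨rs α j zi.1, h4.2.1⟩,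
              zu - 2 * oS a b v j * cr (dd a b) (G zi.1 (nS α j))), ⟨j, hj, rfl⟩⟩ h3
    · refine ⟨(zi, k), ?_⟩
      exact Prod.ext rfl hk.1.symm
  · apply (Set.finite_range (fun k : {i : St // Al q i} × Fin 5 =>
      ((k.1, uu a b k.1.1 (vS a b v α k.2)) : {i : St // Al q i} × ℝ))).subset
    rintro ⟨zi, zu⟩ ⟨h1, h2, h3⟩
    have hI : InR a b v α zi.1 zu := (inR_iff _ _ _ _ _ _).2 ⟨h1, h2⟩
    rcases (EX a b v α h q hR zi.1 zu zi.2).2.2.2.2.1 hI with ⟨z, hz, hzz⟩ | ⟨k, hk⟩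
    · exact absurd ⟨(⟨z.1, hz⟩, z.2), hzz⟩ h3
    · refine ⟨(zi, k), ?_⟩
      exact Prod.ext rfl hk.1.symm
  · intro i
    exact hN.1 i.1
  · intro z hz
    exact (inR_iff _ _ _ _ _ _).1 (hN.2.1 _ hz).2
  · intro z z' hz
    exact hN.2.2 _ _ z.1.2 hz

/-- a state outside class zero is contained in `N` or disjoint from `N` -/
theorem dich {a b v α : ℝ} {h q : ℕ} (hR : Rat a b v α h q) (EX : S_EX) (NS : S_NS) (KE : S_KE)
    {N : Set (St × ℝ)} (hN : Inv a b v α q N) (i : St) (hi : Al q i) (hC : ¬ C0 i) :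
    (∀ u, InR a b v α i u → (i, u) ∈ N) ∨ ∀ u, (i, u) ∉ N := by
  by_contra hcon
  push Not at hcon
  obtain ⟨⟨w, hw, hwN⟩, p, hp⟩ := hcon
  have hpR := (inR_iff _ _ _ _ _ _).1 (hN.2.1 _ hp).2
  have hwR := (inR_iff _ _ _ _ _ _).1 hw
  simp only at hpR
  have hop : IsOpen {u : ℝ | (i, u) ∈ N} := hN.1 i
  have hcl : IsClosed {u : ℝ | (i, u) ∉ N} := by
    have := hop.isClosed_compl
    exact this
  rcases lt_trichotomy p w with hpw | hpw | hpw
  · set S : Set ℝ := {u | (i, u) ∉ N} ∩ Icc p w with hS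
    have hSne : S.Nonempty := ⟨w, hwN, hpw.le, le_rfl⟩
    have hSb : BddBelow S := ⟨p, fun u hu => hu.2.1⟩
    have hSc : IsClosed S := hcl.inter isClosed_Icc
    have hm : sInf S ∈ S := hSc.csInf_mem hSne hSb
    have hne : p ≠ sInf S := by
      intro he
      rw [← he] at hm
      exact hm.1 hp
    have hpy : p < sInf S := lt_of_le_of_ne hm.2.1 hne
    apply hC
    refine bd hR EX NS KE hN (i, sInf S) hi
      ((inR_iff _ _ _ _ _ _).2 ⟨by simp only; linarith [hpR.1], by simp only; linarith [hm.2.2, hwR.2]⟩)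
      hm.1 ⟨sInf S - p, by linarith, Or.inr ?_⟩
    intro u hu1 hu2
    simp only at hu1 hu2
    by_contra hc
    have : sInf S ≤ u := csInf_le hSb ⟨hc, by linarith, by linarith [hm.2.2]⟩
    linarith
  · rw [hpw] at hp
    exact hwN hp
  · set S : Set ℝ := {u | (i, u) ∉ N} ∩ Icc w p with hS
    have hSne : S.Nonempty := ⟨w, hwN, le_rfl, hpw.le⟩
    have hSb : BddAbove S := ⟨p, fun u hu => hu.2.2⟩
    have hSc : IsClosed S := hcl.inter isClosed_Icc
    have hm : sSup S ∈ S := hSc.csSup_mem hSne hSb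
    have hne : sSup S ≠ p := by
      intro he
      rw [he] at hm
      exact hm.1 hp
    have hpy : sSup S < p := lt_of_le_of_ne hm.2.2 hne
    apply hC
    refine bd hR EX NS KE hN (i, sSup S) hi
      ((inR_iff _ _ _ _ _ _).2 ⟨by simp only; linarith [hm.2.1, hwR.1], by simp only; linarith [hpR.2]⟩)
      hm.1 ⟨p - sSup S, by linarith, Or.inl ?_⟩
    intro u hu1 hu2
    simp only at hu1 hu2
    by_contra hc
    have : u ≤ sSup S := le_csSup hSb ⟨hc, by linarith [hm.2.1], by linarith⟩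
    linarith

/-! ### the geometry of the sides -/

theorem uu_sub (a b : ℝ) (i : St) (x y : ℂ) : uu a b i x - uu a b i y = cr (dd a b) (G i (x - y)) := by
  obtain ⟨w, t⟩ := i
  cases t <;> simp [uu, cr, G] <;> ring

theorem cr_G_I (a b : ℝ) (i : St) (n : ℂ) (s : ℝ) :
    cr (dd a b) (G i (s * (Complex.I * n))) =
      s * (if i.2 then 1 else -1) * dt (dd a b) (G i n) := by
  obtain ⟨w, t⟩ := i
  cases t <;> simp [dt, cr, G] <;> ring

theorem sincos {a b v α : ℝ} (hO : Ok a b v α) : 1 / 2 < Real.sin α ∧ 1 / 2 < Real.cos α := by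
  obtain ⟨_, _, _, _, _, _, h1, h2⟩ := hO
  have hp := Real.pi_gt_three
  have hp2 := Real.pi_lt_d2
  constructor
  · rw [← Real.sin_pi_div_six]
    apply Real.sin_lt_sin_of_lt_of_le_pi_div_two <;> linarith
  · rw [← Real.cos_pi_div_three]
    apply Real.cos_lt_cos_of_nonneg_of_le_pi_div_two <;> linarith

/-- side `j` is a positive multiple of `I n_j` -/
theorem side {a b v α : ℝ} (hO : Ok a b v α) (j : Fin 5) :
    ∃ s : ℝ, 0 < s ∧ vS a b v α (j + 1) - vS a b v α j = s * (Complex.I * nS α j) := by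
  obtain ⟨hs, hc⟩ := sincos hO
  obtain ⟨h1, h2, h3, h4, h5, h6, h7, h8⟩ := hO
  have hs0 : Real.sin α ≠ 0 := by linarith
  have hc0 : Real.cos α ≠ 0 := by linarith
  have e1 : v / Real.cos α < b := by
    rw [div_lt_iff₀ (by linarith)]
    nlinarith
  have e2 : v / Real.sin α < a := by
    rw [div_lt_iff₀ (by linarith)]
    nlinarith
  have muI : ∀ (s : ℝ) (n : ℂ), (s : ℂ) * (Complex.I * n) = ⟨-(s * n.im), s * n.re⟩ := by
    intro s n
    apply Complex.ext <;> simp
  fin_cases j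
  · refine ⟨b, by linarith, ?_⟩
    rw [muI]
    apply Complex.ext <;> simp [vS, nS]
  · refine ⟨a, by linarith, ?_⟩
    rw [muI]
    apply Complex.ext <;> simp [vS, nS]
  · refine ⟨b - v / Real.cos α, by linarith, ?_⟩
    rw [muI]
    apply Complex.ext <;> simp [vS, nS]
    ring
  · refine ⟨v / (Real.sin α * Real.cos α), by positivity, ?_⟩
    rw [muI]
    apply Complex.ext <;> simp [vS, nS] <;> field_simp
  · refine ⟨a - v / Real.sin α, by linarith, ?_⟩
    rw [muI]
    apply Complex.ext <;> simp [vS, nS]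
    ring

/-- there is a chord which leaves through an exit side -/
theorem ex_exit {a b v α : ℝ} (hO : Ok a b v α) (i : St) (j : Fin 5)
    (hd : 0 < dt (dd a b) (G i (nS α j))) : ∃ u, Exit a b v α i u j := by
  obtain ⟨s, hs, he⟩ := side hO j
  have h1 : uu a b i (vS a b v α (j + 1)) - uu a b i (vS a b v α j) =
      s * (if i.2 then 1 else -1) * dt (dd a b) (G i (nS α j)) := by
    rw [uu_sub, he, cr_G_I]
  have h2 : uu a b i (vS a b v α j) ≠ uu a b i (vS a b v α (j + 1)) := by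
    intro hc
    rw [hc, sub_self] at h1
    have h3 : s * (if i.2 then 1 else -1) * dt (dd a b) (G i (nS α j)) ≠ 0 := by
      refine mul_ne_zero (mul_ne_zero hs.ne' ?_) hd.ne'
      split_ifs <;> norm_num
    exact h3 h1.symm
  obtain ⟨u, h3, h4⟩ := exists_between (min_lt_max.2 h2)
  exact ⟨u, hd, h3, h4⟩

/-- steps through an exit side -/
theorem stepP {a b v α : ℝ} {h q : ℕ} (hR : Rat a b v α h q) (EX : S_EX) (NS : S_NS) (KE : S_KE)
    {N : Set (St × ℝ)} (hN : Inv a b v α q N) (i : St) (j : Fin 5) (hi : Al q i) (hC : ¬ C0 i)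
    (hC' : ¬ C0 (rs α j i)) (hd : 0 < dt (dd a b) (G i (nS α j))) :
    (∀ u, InR a b v α i u → (i, u) ∈ N) ↔
      ∀ u, InR a b v α (rs α j i) u → (rs α j i, u) ∈ N := by
  obtain ⟨u, hu⟩ := ex_exit hR.1 i j hd
  have h3 := (EX a b v α h q hR i u hi).2.2.1 j hu
  have h4 := hN.2.2 (i, u) (rs α j i, u - 2 * oS a b v j * cr (dd a b) (G i (nS α j))) hi
    ⟨j, hu, rfl⟩
  constructor
  · intro hP
    rcases dich hR EX NS KE hN (rs α j i) h3.2.1 hC' with h5 | h5
    · exact h5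
    · exact absurd (h4.1 (hP u h3.1)) (h5 _)
  · intro hP
    rcases dich hR EX NS KE hN i hi hC with h5 | h5
    · exact h5
    · exact absurd (h4.2 (hP _ h3.2.2)) (h5 _)

theorem rs0 (α : ℝ) (w : ℂ) (t : Bool) : rs α 0 (w, t) = (-w, !t) := by
  cases t <;> simp [rs, nS]

theorem rs1 (α : ℝ) (w : ℂ) (t : Bool) : rs α 1 (w, t) = (w, !t) := by
  cases t <;> simp [rs, nS]

theorem rs2 (α : ℝ) (w : ℂ) (t : Bool) : rs α 2 (w, t) = (-w, !t) := by
  cases t <;> simp [rs, nS]

theorem rs4 (α : ℝ) (w : ℂ) (t : Bool) : rs α 4 (w, t) = (w, !t) := by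
  cases t <;> simp [rs, nS]

/-- the rotation at the cut -/
noncomputable def gg (α : ℝ) : ℂ := Complex.exp (-(2 * α * Complex.I))

theorem nS3 (α : ℝ) : (nS α 3) ^ 2 = -gg α := by
  have h1 : nS α 3 = Complex.I * Complex.exp (-(α * Complex.I)) := by
    have : -((α : ℂ) * Complex.I) = ((-α : ℝ) : ℂ) * Complex.I := by push_cast; ring
    rw [this, Complex.exp_mul_I, ← Complex.ofReal_cos, ← Complex.ofReal_sin]
    apply Complex.ext <;> simp [nS, Complex.sin_ofReal_re, Complex.cos_ofReal_re]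
  rw [h1, mul_pow, Complex.I_sq, ← Complex.exp_nat_mul, gg]
  rw [neg_one_mul]
  congr 2
  push_cast
  ring

theorem rs3 (α : ℝ) (w : ℂ) : rs α 3 (w, true) = (w * gg α, false) := by
  unfold rs
  simp only [if_true, nS3]
  simp

theorem dt_neg (a b : ℝ) (w : ℂ) (t : Bool) (n : ℂ) :
    dt (dd a b) (G (-w, t) n) = -dt (dd a b) (G (w, t) n) := by
  cases t <;> simp [dt, G] <;> ring

theorem dt_neg' (a b : ℝ) (i : St) (n : ℂ) :
    dt (dd a b) (G i (-n)) = -dt (dd a b) (G i n) := by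
  obtain ⟨w, t⟩ := i
  cases t <;> simp [dt, G] <;> ring

theorem al_neg {q : ℕ} {w : ℂ} {t t' : Bool} (h : Al q (w, t)) : Al q (-w, t') := by
  unfold Al at *
  simp only at *
  rw [pow_mul, neg_sq, ← pow_mul, h]

theorem c0_neg {w : ℂ} {t t' : Bool} (h : ¬ C0 (w, t)) : ¬ C0 (-w, t') := by
  unfold C0 at *
  simp only at *
  rw [neg_sq]
  exact h

section flips

variable {a b v α : ℝ} {h q : ℕ} (hR : Rat a b v α h q) (EX : S_EX) (NS : S_NS) (KE : S_KE)
    {N : Set (St × ℝ)} (hN : Inv a b v α q N)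

include hR EX NS KE hN

theorem flipA (w : ℂ) (t : Bool) (hi : Al q (w, t)) (hC : ¬ C0 (w, t)) :
    (∀ u, InR a b v α (w, t) u → ((w, t), u) ∈ N) ↔
      ∀ u, InR a b v α (-w, !t) u → ((-w, !t), u) ∈ N := by
  have h0 := (EX a b v α h q hR (w, t) 0 hi).2.2.2.2.2.2.2.2 2
  rcases lt_or_gt_of_ne h0 with h1 | h1
  · have h2 : 0 < dt (dd a b) (G (w, t) (nS α 0)) := by
      have : nS α 0 = -nS α 2 := by simp [nS]
      rw [this, dt_neg']
      linarith
    have := stepP hR EX NS KE hN (w, t) 0 hi hC (by rw [rs0]; exact c0_neg hC) h2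
    rw [rs0] at this
    exact this
  · have := stepP hR EX NS KE hN (w, t) 2 hi hC (by rw [rs2]; exact c0_neg hC) h1
    rw [rs2] at this
    exact this

theorem flipB (w : ℂ) (t : Bool) (hi : Al q (w, t)) (hC : ¬ C0 (w, t)) :
    (∀ u, InR a b v α (w, t) u → ((w, t), u) ∈ N) ↔
      ∀ u, InR a b v α (w, !t) u → ((w, !t), u) ∈ N := by
  have h0 := (EX a b v α h q hR (w, t) 0 hi).2.2.2.2.2.2.2.2 4
  rcases lt_or_gt_of_ne h0 with h1 | h1
  · have h2 : 0 < dt (dd a b) (G (w, t) (nS α 1)) := by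
      have : nS α 1 = -nS α 4 := by simp [nS]
      rw [this, dt_neg']
      linarith
    have := stepP hR EX NS KE hN (w, t) 1 hi hC (by rw [rs1]; exact hC) h2
    rw [rs1] at this
    exact this
  · have := stepP hR EX NS KE hN (w, t) 4 hi hC (by rw [rs4]; exact hC) h1
    rw [rs4] at this
    exact this

theorem flipC (w : ℂ) (hi : Al q (w, true)) (hC : ¬ C0 (w, true)) (hi' : Al q (w * gg α, true))
    (hC' : ¬ C0 (w * gg α, true)) :
    (∀ u, InR a b v α (w, true) u → ((w, true), u) ∈ N) ↔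
      ∀ u, InR a b v α (w * gg α, true) u → ((w * gg α, true), u) ∈ N := by
  have h0 := (EX a b v α h q hR (w, true) 0 hi).2.2.2.2.2.2.2.2 3
  rcases lt_or_gt_of_ne h0 with h1 | h1
  · have h2 : 0 < dt (dd a b) (G (-w, true) (nS α 3)) := by
      rw [dt_neg]
      linarith
    have := stepP hR EX NS KE hN (-w, true) 3 (al_neg hi) (c0_neg hC)
      (by rw [rs3, neg_mul]; exact c0_neg hC') h2
    rw [rs3, neg_mul] at this
    rw [flipA hR EX NS KE hN w true hi hC, flipB hR EX NS KE hN (-w) (!true) (al_neg hi) (c0_neg hC)]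
    rw [flipA hR EX NS KE hN (w * gg α) true hi' hC']
    exact this
  · have := stepP hR EX NS KE hN (w, true) 3 hi hC (by rw [rs3]; exact hC') h1
    rw [rs3] at this
    rw [this]
    exact flipB hR EX NS KE hN (w * gg α) false hi' hC'

end flips

/-! ### the group of the classes -/

theorem h_pos {a b v α : ℝ} {h q : ℕ} (hR : Rat a b v α h q) : 0 < h ∧ h < q := by
  obtain ⟨⟨_, _, _, _, _, _, h1, h2⟩, _, _, h3, h4⟩ := hR
  have hq : (0 : ℝ) < q := by
    have : 0 < q := by omega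
    exact_mod_cast this
  have h5 : α * q = Real.pi * h := by
    rw [h4]; field_simp
  have hp := Real.pi_gt_three
  constructor
  · have : (0 : ℝ) < h := by
      by_contra hc
      have : (h : ℝ) ≤ 0 := not_lt.1 hc
      nlinarith
    exact_mod_cast this
  · have : (h : ℝ) < q := by
      by_contra hc
      have : (q : ℝ) ≤ h := not_lt.1 hc
      nlinarith
    exact_mod_cast this

theorem prim {a b v α : ℝ} {h q : ℕ} (hR : Rat a b v α h q) : IsPrimitiveRoot (gg α ^ 2) q := by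
  obtain ⟨h1, h2⟩ := h_pos hR
  obtain ⟨_, _, hp, h3, h4⟩ := hR
  have hc : Nat.Coprime (2 * h) q := by
    rw [Nat.coprime_comm, Nat.Prime.coprime_iff_not_dvd hp]
    intro hd
    rcases (Nat.Prime.dvd_mul hp).1 hd with hd | hd
    · have := Nat.le_of_dvd (by norm_num) hd
      omega
    · have := Nat.le_of_dvd h1 hd
      omega
  have h5 := (Complex.isPrimitiveRoot_exp_of_coprime (2 * h) q (by omega) hc).inv
  have h6 : gg α ^ 2 = (Complex.exp (2 * Real.pi * Complex.I * ((2 * h : ℕ) / (q : ℂ))))⁻¹ := by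
    rw [← Complex.exp_neg, gg, ← Complex.exp_nat_mul]
    congr 1
    rw [h4]
    push_cast
    ring
  rw [h6]
  exact h5

theorem main {a b v α : ℝ} {h q : ℕ} (hR : Rat a b v α h q) (EX : S_EX) (NS : S_NS) (KE : S_KE)
    {N : Set (St × ℝ)} (hN : Inv a b v α q N) (i : St) (hi : Al q i) (hC : ¬ C0 i) :
    (∀ u, InR a b v α i u → (i, u) ∈ N) ↔
      ∀ u, InR a b v α (gg α, true) u → ((gg α, true), u) ∈ N := by
  have hp := prim hR
  have hq5 : 5 ≤ q := hR.2.2.2.1
  have hne : NeZero q := ⟨by omega⟩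
  have hA : ∀ (m : ℕ) (t : Bool), Al q (gg α ^ m, t) := by
    intro m t
    show (gg α ^ m) ^ (2 * q) = 1
    rw [← pow_mul, mul_comm m, pow_mul, pow_mul, hp.pow_eq_one, one_pow]
  have hCm : ∀ (m : ℕ) (t : Bool), 1 ≤ m → m < q → ¬ C0 (gg α ^ m, t) := by
    intro m t h1 h2 hc
    have hc' : (gg α ^ m) ^ 2 = 1 := hc
    rw [← pow_mul, mul_comm, pow_mul] at hc'
    exact hp.pow_ne_one_of_pos_of_lt (by omega) h2 hc'
  have hind : ∀ m : ℕ, 1 ≤ m → m < q →
      ((∀ u, InR a b v α (gg α ^ m, true) u → ((gg α ^ m, true), u) ∈ N) ↔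
        ∀ u, InR a b v α (gg α, true) u → ((gg α, true), u) ∈ N) := by
    intro m h1
    induction m, h1 using Nat.le_induction with
    | base => intro _; rw [pow_one]
    | succ m hm ih =>
      intro hlt
      rw [← ih (by omega)]
      have := flipC hR EX NS KE hN (gg α ^ m) (hA m true) (hCm m true hm (by omega))
        (by rw [← pow_succ]; exact hA (m + 1) true)
        (by rw [← pow_succ]; exact hCm (m + 1) true (by omega) hlt)
      rw [this, pow_succ]
  obtain ⟨w, t⟩ := i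
  -- reduce to `true`
  have ht : (∀ u, InR a b v α (w, t) u → ((w, t), u) ∈ N) ↔
      ∀ u, InR a b v α (w, true) u → ((w, true), u) ∈ N := by
    cases t
    · exact flipB hR EX NS KE hN w false hi hC
    · exact Iff.rfl
  rw [ht]
  have hi2 : (w ^ 2) ^ q = 1 := by
    rw [← pow_mul]; exact hi
  obtain ⟨m, hm, hm2⟩ := hp.eq_pow_of_pow_eq_one hi2
  have hm0 : m ≠ 0 := by
    rintro rfl
    rw [pow_zero] at hm2
    exact hC hm2.symm
  have h1 : 1 ≤ m := by omega
  rw [← pow_mul, mul_comm 2 m, pow_mul] at hm2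
  rcases sq_eq_sq_iff_eq_or_eq_neg.1 hm2 with h2 | h2
  · rw [← h2]
    exact hind m h1 hm
  · have h3 : w = -gg α ^ m := by rw [h2, neg_neg]
    rw [h3, ← hind m h1 hm]
    have h4 := flipA hR EX NS KE hN (gg α ^ m) true (hA m true) (hCm m true h1 hm)
    rw [h4]
    exact flipB hR EX NS KE hN (-gg α ^ m) true (al_neg (hA m true)) (c0_neg (hCm m true h1 hm))

theorem t_MI : S_EX → S_NS → S_KE → S_MI := by
  intro EX NS KE a b v α h q hR N hN
  by_cases hP : ∀ u, InR a b v α (gg α, true) u → ((gg α, true), u) ∈ N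
  · left
    intro z hz hI hK
    unfold K0 at hK
    push Not at hK
    obtain ⟨z', hz', hC⟩ := hK
    rcases hz' with hr | hr
    · have h1 := fwd hR EX hr hz hI
      rw [inv_rtg hR EX hN hr hz hI]
      exact (main hR EX NS KE hN z'.1 h1.1 hC).2 hP _ h1.2
    · have h1 := bwd hR EX hr hz hI
      rw [← inv_rtg hR EX hN hr h1.1 h1.2]
      exact (main hR EX NS KE hN z'.1 h1.1 hC).2 hP _ h1.2
  · right
    intro z hz hI hK
    unfold K0 at hK
    push Not at hK
    obtain ⟨z', hz', hC⟩ := hK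
    have hno : ∀ i, Al q i → ¬ C0 i → ∀ u, (i, u) ∉ N := by
      intro i hi hC
      rcases dich hR EX NS KE hN i hi hC with h5 | h5
      · exact absurd ((main hR EX NS KE hN i hi hC).1 h5) hP
      · exact h5
    rcases hz' with hr | hr
    · have h1 := fwd hR EX hr hz hI
      rw [inv_rtg hR EX hN hr hz hI]
      exact hno z'.1 h1.1 hC z'.2
    · have h1 := bwd hR EX hr hz hI
      rw [← inv_rtg hR EX hN hr h1.1 h1.2]
      exact hno z'.1 h1.1 hC z'.2

end Pool.Agent.U559.BM.MI
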