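import Pool.Agent.U856.BM.Stm1

/-!
# Project BM, package PO: the table is a convex polygon
-/

set_option autoImplicit false

open Set

namespace Pool.Agent.U559.BM.PO

open Pool.Agent.U856.BM

lemma trig {α : ℝ} (h1 : 0.75 < α) (h2 : α < 0.82) : 1 / 2 < Real.sin α ∧ 1 / 2 < Real.cos α := by
  have hp := Real.pi_gt_three
  have hp' := Real.pi_lt_d2
  constructor
  · rw [← Real.sin_pi_div_six]
    apply Real.sin_lt_sin_of_lt_of_le_pi_div_two
    · linarith
    · norm_num at *
      linarith
    · norm_num at *
      linarith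
  · rw [← Real.cos_pi_div_three]
    apply Real.cos_lt_cos_of_nonneg_of_le_pi
    · norm_num at *
      linarith
    · linarith
    · norm_num at *
      linarith

lemma mem_iff (a b v α : ℝ) (z : ℂ) : z ∈ Tb a b v α ↔ -z.re ≤ a ∧ -z.im ≤ b ∧ z.re ≤ 0 ∧
    Real.sin α * z.re + Real.cos α * z.im ≤ -v ∧ z.im ≤ 0 := by
  have h : z ∈ Tb a b v α ↔ ∀ j : Fin 5, dt (nS α j) z ≤ oS a b v j := Iff.rfl
  rw [h]
  constructor
  · intro h
    have h0 := h 0
    have h1 := h 1
    have h2 := h 2
    have h3 := h 3
    have h4 := h 4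
    simp [dt, nS, oS] at h0 h1 h2 h3 h4
    exact ⟨by linarith, by linarith, by linarith, by linarith, by linarith⟩
  · rintro ⟨h0, h1, h2, h3, h4⟩ j
    fin_cases j
    · simp [dt, nS, oS]
      linarith
    · simp [dt, nS, oS]
      linarith
    · simp [dt, nS, oS]
      linarith
    · simp [dt, nS, oS]
      linarith
    · simp [dt, nS, oS]
      linarith

lemma comb {S : Set ℂ} (hS : Convex ℝ S) {p q z : ℂ} (hp : p ∈ S) (hq : q ∈ S) (t : ℝ)
    (h0 : 0 ≤ t) (h1 : t ≤ 1) (hre : z.re = t * p.re + (1 - t) * q.re)
    (him : z.im = t * p.im + (1 - t) * q.im) : z ∈ S := by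
  have h := hS hp hq h0 (sub_nonneg.2 h1) (by ring)
  have e : t • p + (1 - t) • q = z := by
    apply Complex.ext
    · rw [hre]
      simp
    · rw [him]
      simp
  rw [e] at h
  exact h

theorem t_PO : S_SD → S_PO := by
  intro hSD a b v α hok
  have hok' := hok
  obtain ⟨ha, ha', hb, hb', hv, hv', hα, hα'⟩ := hok'
  obtain ⟨hs, hc⟩ := trig hα hα'
  obtain ⟨s, hs_def⟩ : ∃ s, s = Real.sin α := ⟨_, rfl⟩
  obtain ⟨c, hc_def⟩ : ∃ c, c = Real.cos α := ⟨_, rfl⟩
  have hs1 : s ≤ 1 := by rw [hs_def]; exact Real.sin_le_one α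
  have hc1 : c ≤ 1 := by rw [hc_def]; exact Real.cos_le_one α
  rw [← hs_def] at hs
  rw [← hc_def] at hc
  norm_num at ha ha' hb hb' hv hv'
  have hv0 : 0 < v := by linarith
  have hvs : v / s < 1 / 2 := by
    rw [div_lt_iff₀ (by linarith)]
    linarith
  have hvc : v / c < 1 / 2 := by
    rw [div_lt_iff₀ (by linarith)]
    linarith
  have hvs0 : 0 < v / s := div_pos hv0 (by linarith)
  have hvc0 : 0 < v / c := div_pos hv0 (by linarith)
  refine ⟨⟨{⟨-a, 0⟩, ⟨-a, -b⟩, ⟨0, -b⟩, ⟨0, -(v / c)⟩, ⟨-(v / s), 0⟩}, ?_⟩, ?_⟩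
  · apply Subset.antisymm
    · intro z hz
      rw [mem_iff, ← hs_def, ← hc_def] at hz
      obtain ⟨h0, h1, h2, h3, h4⟩ := hz
      have hcv := convex_convexHull ℝ
        ((({⟨-a, 0⟩, ⟨-a, -b⟩, ⟨0, -b⟩, ⟨0, -(v / c)⟩, ⟨-(v / s), 0⟩} : Finset ℂ) : Set ℂ))
      have hsub := subset_convexHull ℝ
        ((({⟨-a, 0⟩, ⟨-a, -b⟩, ⟨0, -b⟩, ⟨0, -(v / c)⟩, ⟨-(v / s), 0⟩} : Finset ℂ) : Set ℂ))
      have hA := hsub (show (⟨-a, 0⟩ : ℂ) ∈ _ by simp)
      have hB := hsub (show (⟨-a, -b⟩ : ℂ) ∈ _ by simp)
      have hC := hsub (show (⟨0, -b⟩ : ℂ) ∈ _ by simp)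
      have hD := hsub (show (⟨0, -(v / c)⟩ : ℂ) ∈ _ by simp)
      have hE := hsub (show (⟨-(v / s), 0⟩ : ℂ) ∈ _ by simp)
      have hbot : (⟨z.re, -b⟩ : ℂ) ∈ _ := comb hcv hB hC (-z.re / a)
        (div_nonneg (by linarith) (by linarith)) (by rw [div_le_one (by linarith)]; linarith)
        (by simp only; field_simp; ring) (by simp only; ring)
      by_cases hx : z.re ≤ -(v / s)
      · have hpos : 0 < a - v / s := by linarith
        have htop : (⟨z.re, 0⟩ : ℂ) ∈ _ := comb hcv hA hE ((-z.re - v / s) / (a - v / s))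
          (div_nonneg (by linarith) hpos.le) (by rw [div_le_one hpos]; linarith)
          (by
            simp only
            have e : (-z.re - v / s) / (a - v / s) * (a - v / s) = -z.re - v / s :=
              div_mul_cancel₀ _ hpos.ne'
            linear_combination e) (by simp only; ring)
        exact comb hcv htop hbot ((z.im + b) / b) (div_nonneg (by linarith) (by linarith))
          (by rw [div_le_one (by linarith)]; linarith) (by simp only; ring)
          (by
            simp only
            have hb0 : b ≠ 0 := by linarith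
            field_simp
            ring)
      · push Not at hx
        have htop : (⟨z.re, -((v + z.re * s) / c)⟩ : ℂ) ∈ _ := comb hcv hE hD (-z.re * s / v)
          (div_nonneg (by nlinarith) hv0.le)
          (by
            rw [div_le_one hv0]
            have h5 : v / s * s = v := div_mul_cancel₀ _ (by linarith)
            nlinarith)
          (by
            simp only
            have hs0 : s ≠ 0 := by linarith
            field_simp
            ring)
          (by
            simp only
            have hc0 : c ≠ 0 := by linarith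
            field_simp
            ring)
        have h6 : (v + z.re * s) / c ≤ v / c := by
          apply div_le_div_of_nonneg_right _ (by linarith)
          nlinarith
        have h7 : 0 < b - (v + z.re * s) / c := by linarith
        have h8 : z.im ≤ -((v + z.re * s) / c) := by
          rw [← sub_nonneg]
          have e : -((v + z.re * s) / c) - z.im = (-v - (s * z.re + c * z.im)) / c := by
            have hc0 : c ≠ 0 := by linarith
            field_simp
            ring
          rw [e]
          exact div_nonneg (by linarith) (by linarith)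
        refine comb hcv htop hbot ((z.im + b) / (b - (v + z.re * s) / c))
          (div_nonneg (by linarith) h7.le) (by rw [div_le_one h7]; linarith) (by simp only; ring) ?_
        simp only
        have e : (z.im + b) / (b - (v + z.re * s) / c) * (b - (v + z.re * s) / c) = z.im + b :=
          div_mul_cancel₀ _ h7.ne'
        linear_combination -e
    · apply convexHull_min
      · intro z hz
        simp only [Finset.coe_insert, Finset.coe_singleton, mem_insert_iff, mem_singleton_iff] at hz
        have e1 : c * (v / c) = v := mul_div_cancel₀ _ (by linarith)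
        have e2 : s * (v / s) = v := mul_div_cancel₀ _ (by linarith)
        rcases hz with rfl | rfl | rfl | rfl | rfl <;> rw [mem_iff, ← hs_def, ← hc_def] <;>
          simp only <;> refine ⟨?_, ?_, ?_, ?_, ?_⟩ <;> nlinarith
      · intro p hp q hq x y hx hy hxy
        rw [mem_iff, ← hs_def, ← hc_def] at hp hq ⊢
        obtain ⟨p0, p1, p2, p3, p4⟩ := hp
        obtain ⟨q0, q1, q2, q3, q4⟩ := hq
        obtain rfl : y = 1 - x := by linarith
        simp only [Complex.add_re, Complex.add_im, Complex.real_smul, Complex.mul_re,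
          Complex.mul_im, Complex.ofReal_re, Complex.ofReal_im, zero_mul, sub_zero, add_zero]
        refine ⟨?_, ?_, ?_, ?_, ?_⟩ <;> nlinarith
  · refine ⟨⟨-(a / 2), -(b / 2)⟩, ?_⟩
    rw [(hSD a b v α hok).1]
    intro j
    fin_cases j
    · simp [dt, nS, oS]
      linarith
    · simp [dt, nS, oS]
      linarith
    · simp [dt, nS, oS]
      linarith
    · simp [dt, nS, oS]
      rw [← hs_def, ← hc_def]
      nlinarith
    · simp [dt, nS, oS]
      linarith

end Pool.Agent.U559.BM.PO
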