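import Pool.Agent.U856.BM.Stm1

/-!
# Project BM, package SD: the sides of the table
-/

set_option autoImplicit false

open Set Filter Topology ComplexConjugate

namespace Pool.Agent.U559.BM.SD

open Pool.Agent.U856.BM

theorem sincos {a b v α : ℝ} (hO : Ok a b v α) : 1 / 2 < Real.sin α ∧ 1 / 2 < Real.cos α := by
  obtain ⟨_, _, _, _, _, _, h1, h2⟩ := hO
  have hp := Real.pi_gt_three
  have hp2 := Real.pi_lt_d2
  constructor
  · rw [← Real.sin_pi_div_six]
    apply Real.sin_lt_sin_of_lt_of_le_pi_div_two <;> linarith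
  · rw [← Real.cos_pi_div_three]
    apply Real.cos_lt_cos_of_nonneg_of_le_pi_div_two <;> linarith

theorem dt_cont (n : ℂ) : Continuous (fun z : ℂ => dt n z) := by
  unfold dt
  fun_prop

theorem dt_add (n z w : ℂ) : dt n (z + w) = dt n z + dt n w := by
  simp [dt]; ring

theorem dt_sub (n z w : ℂ) : dt n (z - w) = dt n z - dt n w := by
  simp [dt]; ring

theorem dt_smul (n z : ℂ) (t : ℝ) : dt n (t • z) = t * dt n z := by
  simp [dt]; ring

theorem unit (α : ℝ) (j : Fin 5) : dt (nS α j) (nS α j) = 1 := by
  have := Real.sin_sq_add_cos_sq α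
  fin_cases j <;> simp [dt, nS]
  nlinarith

theorem nS_inj {a b v α : ℝ} (hO : Ok a b v α) {j k : Fin 5} (h : nS α j = nS α k) : j = k := by
  obtain ⟨hs, hc⟩ := sincos hO
  have h1 := congrArg Complex.re h
  have h2 := congrArg Complex.im h
  fin_cases j <;> fin_cases k <;> first | rfl | (exfalso; simp [nS] at h1 h2; try linarith)

theorem eq_of_half {n m : ℂ} (hn : dt n n = 1) (hm : dt m m = 1) {r : ℝ} (hr : 0 < r)
    (h : ∀ w : ℂ, ‖w‖ < r → dt n w ≤ 0 → dt m w ≤ 0) : m = n := by
  have hnn : ‖n‖ = 1 := by
    have h1 : ‖n‖ ^ 2 = 1 := by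
      rw [← Complex.normSq_eq_norm_sq, Complex.normSq_apply]
      exact hn
    have h2 := norm_nonneg n
    nlinarith
  -- the three test vectors
  have ht : ∀ w : ℂ, ‖w‖ = 1 → dt n w ≤ 0 → dt m w ≤ 0 := by
    intro w hw hd
    have h1 := h ((r / 2) • w) (by rw [norm_smul, hw, Real.norm_of_nonneg (by linarith)]; linarith)
      (by rw [dt_smul]; exact mul_nonpos_of_nonneg_of_nonpos (by linarith) hd)
    rw [dt_smul] at h1
    by_contra hc
    have : 0 < r / 2 * dt m w := mul_pos (by linarith) (not_le.1 hc)
    linarith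
  have e1 := ht (Complex.I * n) (by rw [norm_mul, Complex.norm_I, hnn, mul_one])
    (by simp [dt]; nlinarith)
  have e2 := ht (-(Complex.I * n)) (by rw [norm_neg, norm_mul, Complex.norm_I, hnn, mul_one])
    (by simp [dt]; nlinarith)
  have e3 := ht (-n) (by rw [norm_neg, hnn]) (by simp only [dt, Complex.neg_re, Complex.neg_im] at *; nlinarith)
  simp only [dt, Complex.neg_re, Complex.neg_im, Complex.mul_re, Complex.mul_im, Complex.I_re,
    Complex.I_im] at e1 e2 e3 hn hm
  have e4 : m.re * n.im = m.im * n.re := by nlinarith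
  set c : ℝ := m.re * n.re + m.im * n.im with hc
  have c0 : 0 ≤ c := by nlinarith
  have a1 : m.re = n.re * c := by
    rw [hc]
    calc m.re = m.re * (n.re * n.re + n.im * n.im) := by rw [hn, mul_one]
      _ = n.re * (m.re * n.re) + n.im * (m.re * n.im) := by ring
      _ = n.re * (m.re * n.re) + n.im * (m.im * n.re) := by rw [e4]
      _ = _ := by ring
  have a2 : m.im = n.im * c := by
    rw [hc]
    calc m.im = m.im * (n.re * n.re + n.im * n.im) := by rw [hn, mul_one]
      _ = n.re * (m.im * n.re) + n.im * (m.im * n.im) := by ring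
      _ = n.re * (m.re * n.im) + n.im * (m.im * n.im) := by rw [e4]
      _ = _ := by ring
  have c1 : c ^ 2 = 1 := by
    have : c ^ 2 * (n.re * n.re + n.im * n.im) = 1 := by
      rw [← hm, a1, a2]; ring
    rwa [hn, mul_one] at this
  have c2 : c = 1 := by nlinarith
  apply Complex.ext
  · rw [a1, c2, mul_one]
  · rw [a2, c2, mul_one]

theorem mem_Tb (a b v α : ℝ) (z : ℂ) : z ∈ Tb a b v α ↔ ∀ j : Fin 5, dt (nS α j) z ≤ oS a b v j :=
  Iff.rfl

theorem int_iff (a b v α : ℝ) (z : ℂ) :
    z ∈ interior (Tb a b v α) ↔ ∀ j : Fin 5, dt (nS α j) z < oS a b v j := by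
  constructor
  · intro hz j
    have hm := interior_subset hz
    by_contra hc
    have he : dt (nS α j) z = oS a b v j := le_antisymm (hm j) (not_lt.1 hc)
    obtain ⟨r, hr, hb⟩ := Metric.mem_nhds_iff.1 (mem_interior_iff_mem_nhds.1 hz)
    have hn : ‖nS α j‖ = 1 := by
      have h1 : ‖nS α j‖ ^ 2 = 1 := by
        rw [← Complex.normSq_eq_norm_sq, Complex.normSq_apply]
        exact unit α j
      have h2 := norm_nonneg (nS α j)
      nlinarith
    have h3 : z + (r / 2) • nS α j ∈ Tb a b v α := by
      apply hb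
      rw [Metric.mem_ball, dist_eq_norm, add_sub_cancel_left, norm_smul, hn,
        Real.norm_of_nonneg (by linarith)]
      linarith
    have h4 := h3 j
    rw [dt_add, dt_smul, unit, he] at h4
    linarith
  · intro hz
    have hop : IsOpen {w : ℂ | ∀ j : Fin 5, dt (nS α j) w < oS a b v j} := by
      have : {w : ℂ | ∀ j : Fin 5, dt (nS α j) w < oS a b v j} =
          ⋂ j : Fin 5, {w : ℂ | dt (nS α j) w < oS a b v j} := by
        ext w; simp
      rw [this]
      exact isOpen_iInter_of_finite fun j => isOpen_lt (dt_cont _) continuous_const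
    exact interior_maximal (fun w hw j => (hw j).le) hop hz

theorem t_SD : S_SD := by
  intro a b v α hO
  refine ⟨int_iff a b v α, ?_, ?_⟩
  · intro z j hj hk
    refine ⟨fun k => ?_, unit α j, ?_⟩
    · by_cases h : k = j
      · rw [h, hj]
      · exact (hk k h).le
    · have hop : IsOpen {w : ℂ | ∀ k : Fin 5, k ≠ j → dt (nS α k) w < oS a b v k} := by
        have : {w : ℂ | ∀ k : Fin 5, k ≠ j → dt (nS α k) w < oS a b v k} =
            ⋂ k : Fin 5, {w : ℂ | k ≠ j → dt (nS α k) w < oS a b v k} := by
          ext w; simp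
        rw [this]
        refine isOpen_iInter_of_finite fun k => ?_
        by_cases h : k = j
        · have : {w : ℂ | k ≠ j → dt (nS α k) w < oS a b v k} = univ := by
            ext w; simp [h]
          rw [this]; exact isOpen_univ
        · have : {w : ℂ | k ≠ j → dt (nS α k) w < oS a b v k} =
              {w : ℂ | dt (nS α k) w < oS a b v k} := by
            ext w; simp [h]
          rw [this]; exact isOpen_lt (dt_cont _) continuous_const
      obtain ⟨r, hr, hb⟩ := Metric.isOpen_iff.1 hop z hk
      refine ⟨r, hr, fun w hw => ?_⟩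
      have hw' := hb (show w ∈ Metric.ball z r by rw [Metric.mem_ball, dist_eq_norm]; exact hw)
      rw [dt_sub, hj]
      constructor
      · intro h
        have := h j
        linarith
      · intro h k
        by_cases hkj : k = j
        · rw [hkj]; linarith
        · exact (hw' k hkj).le
  · rintro z n ⟨hz, hn, r, hr, hw⟩
    have hJ : ∃ j : Fin 5, dt (nS α j) z = oS a b v j := by
      by_contra hc
      push Not at hc
      have hi : z ∈ interior (Tb a b v α) :=
        (int_iff a b v α z).2 fun j => lt_of_le_of_ne (hz j) (hc j)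
      obtain ⟨s, hs, hb⟩ := Metric.mem_nhds_iff.1 (mem_interior_iff_mem_nhds.1 hi)
      have hnn : ‖n‖ = 1 := by
        have h1 : ‖n‖ ^ 2 = 1 := by
          rw [← Complex.normSq_eq_norm_sq, Complex.normSq_apply]
          exact hn
        have h2 := norm_nonneg n
        nlinarith
      have hm : 0 < min r s / 2 := by positivity
      have hlt : ‖(z + (min r s / 2) • n) - z‖ < min r s := by
        rw [add_sub_cancel_left, norm_smul, hnn, Real.norm_of_nonneg hm.le]
        linarith
      have h1 := (hw (z + (min r s / 2) • n) (lt_of_lt_of_le hlt (min_le_left _ _))).1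
        (hb (by rw [Metric.mem_ball, dist_eq_norm]; exact lt_of_lt_of_le hlt (min_le_right _ _)))
      rw [add_sub_cancel_left, dt_smul, hn] at h1
      linarith
    have hall : ∀ j : Fin 5, dt (nS α j) z = oS a b v j → nS α j = n := by
      intro j hj
      refine eq_of_half hn (unit α j) hr ?_
      intro w hwr hd
      have h1 := (hw (z + w) (by rw [add_sub_cancel_left]; exact hwr)).2
        (by rw [add_sub_cancel_left]; exact hd) j
      rw [dt_add, hj] at h1
      linarith
    obtain ⟨j, hj⟩ := hJ
    refine ⟨j, (hall j hj).symm, hj, fun k hk => lt_of_le_of_ne (hz k) fun he => hk ?_⟩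
    exact nS_inj hO ((hall k he).trans (hall j hj).symm)

end Pool.Agent.U559.BM.SD
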